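import Pool.Agent.Run7.h236.Scc.D4

set_option autoImplicit false

namespace Pool.Agent.Results.MP_dce662_co.UnboundedExcess

open Run7.h236.Dce

/-- For every `c` the construction gives a graph `G` with `scc(G) ≥ 4/3 |E(G)| + c`. -/
theorem result : ∀ c : ℕ, ∃ D : Data,
    (4 / 3 : ℝ) * ((graph D).edgeSet.ncard : ℝ) + (c : ℝ) ≤ (scc (graph D) : ℝ) := fun c => final c

end Pool.Agent.Results.MP_dce662_co.UnboundedExcess
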